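import Pool.Agent.H98.GI.Bic

/-!
# `(K_4, S_{1,1,3})`-free graphs without an induced `K_{t,t}`: definitions
-/

set_option autoImplicit false

namespace Pool.Agent.H98.KT

open Pool.Agent.H98.GI

/-- no two sets of `s` vertices are completely adjacent -/
def NoK {V : Type*} (G : SimpleGraph V) (s : ℕ) : Prop :=
  ∀ A B : Finset V, A.card = s → B.card = s → (∀ a ∈ A, ∀ b ∈ B, G.Adj a b) → False

/-- `Elim G c d n S`: in at most `n` rounds, each of which removes at most `c` vertices from each component that is left, one comes
from `G[S]` to sets of vertices which have degree at most `d` in `G` -/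
def Elim {V : Type*} (G : SimpleGraph V) (c d : ℕ) : ℕ → Set V → Prop
  | 0, S => ∀ v ∈ S, (G.neighborSet v).encard ≤ (d : ℕ∞)
  | n + 1, S => ∃ H : Set V, H.encard ≤ (c : ℕ∞) ∧
      ∀ C : (G.induce (S \ H)).ConnectedComponent, Elim G c d n (Subtype.val '' C.supp)

end Pool.Agent.H98.KT
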