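import Pool.Agent.H98.KT.Trace

set_option autoImplicit false

namespace Pool.Agent.H98.KT

open Classical in
theorem family_y {V : Type*} (G : SimpleGraph V) {s M : ℕ} (hs : 1 ≤ s) (hM : 1 ≤ M) (K : Finset V)
    (hK : K.card = s * M) (D : V → Finset V) (hdis : ∀ u ∈ K, ∀ v ∈ K, u ≠ v → Disjoint (D u) (D v))
    (B : Finset V) (hB : B.card ≤ M) (hadj : ∀ u ∈ K, ∃ x ∈ D u, ∃ y ∈ B, G.Adj x y) :
    ∃ y ∈ B, s ≤ ((K.biUnion D).filter fun x => G.Adj y x).card := by
  choose! x hx y hy hxy using hadj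
  have hne : B.Nonempty := by
    have hKne : K.Nonempty := by
      rw [← Finset.card_pos, hK]
      exact Nat.mul_pos hs hM
    obtain ⟨u, hu⟩ := hKne
    exact ⟨y u, hy u hu⟩
  obtain ⟨b, hb, hb'⟩ := Finset.exists_le_card_fiber_of_mul_le_card_of_maps_to (s := K) (t := B) (f := y) (n := s)
    (fun u hu => hy u hu) hne (by rw [hK, mul_comm]; exact Nat.mul_le_mul_left _ hB)
  refine ⟨b, hb, hb'.trans (Finset.card_le_card_of_injOn x ?_ ?_)⟩
  · intro u hu
    have hu' := Finset.mem_filter.1 (Finset.mem_coe.1 hu)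
    refine Finset.mem_coe.2 (Finset.mem_filter.2 ⟨Finset.mem_biUnion.2 ⟨u, hu'.1, hx u hu'.1⟩, ?_⟩)
    rw [← hu'.2]
    exact (hxy u hu'.1).symm
  · intro u hu v hv huv
    have hu' := Finset.mem_filter.1 (Finset.mem_coe.1 hu)
    have hv' := Finset.mem_filter.1 (Finset.mem_coe.1 hv)
    by_contra hne'
    have h1 := hdis u hu'.1 v hv'.1 hne'
    exact Finset.disjoint_left.1 h1 (hx u hu'.1) (huv ▸ hx v hv'.1)

/-- disjoint sets of at most `M` elements, any two of which are joined by an edge, are few: otherwise take `K ⊆ U` with `s M`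
elements, `X = ⋃ D u (u ∈ K)`; each `j ∈ U \ K` has `y_j ∈ D j` with at least `s` neighbours in `X` (pigeonhole on `D j`, the sets are
disjoint), the `y_j` are different, and `trace` applies to `X` and `{y_j}` -/
theorem family {V : Type*} (G : SimpleGraph V) {s M : ℕ} (hN : NoK G s) (hs : 1 ≤ s) (U : Finset V) (D : V → Finset V)
    (hD : ∀ u ∈ U, (D u).card ≤ M) (hdis : ∀ u ∈ U, ∀ v ∈ U, u ≠ v → Disjoint (D u) (D v))
    (hadj : ∀ u ∈ U, ∀ v ∈ U, u ≠ v → ∃ x ∈ D u, ∃ y ∈ D v, G.Adj x y) :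
    U.card ≤ s * M + s * 2 ^ (s * M * M) := by
  classical
  rcases Nat.eq_zero_or_pos M with hM | hM
  · subst hM
    have h1 : U.card ≤ 1 := by
      rw [Finset.card_le_one]
      intro u hu v hv
      by_contra hne
      obtain ⟨x, hx, -⟩ := hadj u hu v hv hne
      have h2 := Finset.card_eq_zero.1 (Nat.le_zero.1 (hD u hu))
      rw [h2] at hx
      exact absurd hx (Finset.notMem_empty _)
    simp only [mul_zero, pow_zero, mul_one, zero_add]
    exact h1.trans hs
  · rcases le_or_gt U.card (s * M) with hU | hU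
    · exact hU.trans (Nat.le_add_right _ _)
    obtain ⟨K, hKU, hK⟩ := Finset.exists_subset_card_eq hU.le
    have hy : ∀ j ∈ U \ K, ∃ y ∈ D j, s ≤ ((K.biUnion D).filter fun x => G.Adj y x).card := by
      intro j hj
      have hj' := Finset.mem_sdiff.1 hj
      refine family_y G hs hM K hK D (fun u hu v hv => hdis u (hKU hu) v (hKU hv)) (D j) (hD j hj'.1) ?_
      intro u hu
      exact hadj u (hKU hu) j hj'.1 (fun h => hj'.2 (h ▸ hu))
    choose! y hy hy' using hy
    have hinj : Set.InjOn y ↑(U \ K) := by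
      intro i hi j hj hij
      by_contra hne
      have hi' := Finset.mem_coe.1 hi
      have hj' := Finset.mem_coe.1 hj
      have h1 := hdis i (Finset.mem_sdiff.1 hi').1 j (Finset.mem_sdiff.1 hj').1 hne
      exact Finset.disjoint_left.1 h1 (hy i hi') (hij ▸ hy j hj')
    have h1 : ((U \ K).image y).card ≤ s * 2 ^ (K.biUnion D).card := by
      refine trace G hN hs (K.biUnion D) ((U \ K).image y) ?_
      intro z hz
      obtain ⟨j, hj, rfl⟩ := Finset.mem_image.1 hz
      exact hy' j hj
    rw [Finset.card_image_of_injOn hinj] at h1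
    have h2 : (K.biUnion D).card ≤ s * M * M := by
      refine (Finset.card_biUnion_le_card_mul K D M (fun u hu => hD u (hKU hu))).trans ?_
      rw [hK]
    have h3 : (U \ K).card + K.card = U.card := Finset.card_sdiff_add_card_eq_card hKU
    have h4 : s * 2 ^ (K.biUnion D).card ≤ s * 2 ^ (s * M * M) :=
      Nat.mul_le_mul_left _ (Nat.pow_le_pow_right (by norm_num) h2)
    omega

end Pool.Agent.H98.KT
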