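import Pool.Agent.H98.KT.Trace

set_option autoImplicit false

namespace Pool.Agent.H98.KT

open Classical in
/-- few vertices are adjacent to a quarter of `I`: double counting for a subset of `8 s` elements of `W` (the elements of `I` with at
least `s` neighbours in it are at least `θ / 2` many) and `trace` -/
theorem few {V : Type*} (G : SimpleGraph V) {s θ : ℕ} (hN : NoK G s) (hs : 1 ≤ s) (hθ : 2 * s * 2 ^ (8 * s) < θ)
    (I : Finset V) (hI : I.card = 4 * θ) (W : Finset V) (hW : ∀ w ∈ W, θ ≤ (I.filter fun a => G.Adj w a).card) :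
    W.card < 8 * s := by
  by_contra hcon
  have hcon' : 8 * s ≤ W.card := not_lt.1 hcon
  obtain ⟨X, hXW, hX⟩ := Finset.exists_subset_card_eq hcon'
  obtain ⟨Y, hYdef⟩ : ∃ Y : Finset V, Y = I.filter fun a => s ≤ (X.filter fun x => G.Adj a x).card := ⟨_, rfl⟩
  have hY : Y.card ≤ s * 2 ^ (8 * s) := by
    have h1 := trace G hN hs X Y (fun y hy => by
      rw [hYdef] at hy
      exact (Finset.mem_filter.1 hy).2)
    rwa [hX] at h1
  have hYI : Y ⊆ I := by
    rw [hYdef]
    exact Finset.filter_subset _ _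
  have hdc : ∑ w ∈ X, (I.filter fun a => G.Adj w a).card = ∑ a ∈ I, (X.filter fun x => G.Adj a x).card := by
    simp only [Finset.card_filter]
    rw [Finset.sum_comm]
    refine Finset.sum_congr rfl fun a _ => Finset.sum_congr rfl fun x _ => ?_
    simp only [G.adj_comm]
  have h1 : 8 * s * θ ≤ ∑ w ∈ X, (I.filter fun a => G.Adj w a).card := by
    calc 8 * s * θ = ∑ w ∈ X, θ := by rw [Finset.sum_const, hX, smul_eq_mul]
      _ ≤ _ := Finset.sum_le_sum fun w hw => hW w (hXW hw)
  have h2 : ∑ a ∈ I, (X.filter fun x => G.Adj a x).card ≤ ∑ a ∈ I, (s + if a ∈ Y then 8 * s else 0) := by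
    refine Finset.sum_le_sum fun a ha => ?_
    by_cases hay : a ∈ Y
    · rw [if_pos hay]
      have h3 : (X.filter fun x => G.Adj a x).card ≤ X.card := Finset.card_filter_le _ _
      omega
    · rw [if_neg hay]
      have h3 : ¬ s ≤ (X.filter fun x => G.Adj a x).card := by
        intro h4
        apply hay
        rw [hYdef]
        exact Finset.mem_filter.2 ⟨ha, h4⟩
      omega
  have h3 : ∑ a ∈ I, (s + if a ∈ Y then 8 * s else 0) = 4 * θ * s + Y.card * (8 * s) := by
    rw [Finset.sum_add_distrib, Finset.sum_const, hI, smul_eq_mul, Finset.sum_ite_mem,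
      Finset.inter_eq_right.2 hYI, Finset.sum_const, smul_eq_mul]
  rw [hdc] at h1
  have h4 : 8 * s * θ ≤ 4 * θ * s + Y.card * (8 * s) := h1.trans (h2.trans h3.le)
  have h5 : θ ≤ 2 * Y.card := by
    have h6 : s * (4 * θ) ≤ s * (8 * Y.card) := by
      have e1 : 8 * s * θ = s * (4 * θ) + 4 * θ * s := by ring
      have e2 : Y.card * (8 * s) = s * (8 * Y.card) := by ring
      omega
    have h7 := Nat.le_of_mul_le_mul_left h6 (by omega)
    omega
  have h8 : 2 * Y.card ≤ 2 * s * 2 ^ (8 * s) := by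
    rw [mul_assoc]
    exact Nat.mul_le_mul_left 2 hY
  omega

end Pool.Agent.H98.KT
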