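import Pool.Agent.H98.KT.Def

set_option autoImplicit false

namespace Pool.Agent.H98.KT

open Pool.Agent.H98.GI

/-- `ramsey4` (Bic.lean) in `A` and in `B`; see `K2.of` in Bic.lean -/
theorem noK_of {V : Type*} (G : SimpleGraph V) (hK : G.CliqueFree 4) (t : ℕ)
    (h : ¬ Nonempty (completeBipartiteGraph (Fin t) (Fin t) ↪g G)) : NoK G (t * (t + 1) * (t + 2)) := by
  intro A B hA hB hAB
  obtain ⟨I, hIA, hI, hi⟩ := ramsey4 hK t A (by rw [hA]; omega)
  obtain ⟨J, hJB, hJ, hj⟩ := ramsey4 hK t B (by rw [hB]; omega)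
  apply h
  obtain ⟨e⟩ : Nonempty (Fin t ≃ I) := ⟨(Finset.equivFinOfCardEq hI).symm⟩
  obtain ⟨f⟩ : Nonempty (Fin t ≃ J) := ⟨(Finset.equivFinOfCardEq hJ).symm⟩
  have hef : ∀ i j, G.Adj (e i : V) (f j : V) := fun i j => hAB _ (hIA (e i).2) _ (hJB (f j).2)
  refine ⟨⟨⟨Sum.elim (fun k => (e k : V)) fun k => (f k : V), ?_⟩, ?_⟩⟩
  · rintro (i | i) (j | j) hij
    · exact congrArg _ (e.injective (Subtype.ext hij))
    · exact absurd (hef i j) (by rw [show (e i : V) = f j from hij]; exact G.loopless.irrefl _)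
    · exact absurd (hef j i) (by rw [show (f i : V) = e j from hij]; exact G.loopless.irrefl _)
    · exact congrArg _ (f.injective (Subtype.ext hij))
  · rintro (i | i) (j | j)
    · exact iff_of_false (hi _ (e i).2 _ (e j).2) (by simp)
    · exact iff_of_true (hef i j) (by simp)
    · exact iff_of_true (hef j i).symm (by simp)
    · exact iff_of_false (hj _ (f i).2 _ (f j).2) (by simp)

end Pool.Agent.H98.KT
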