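import Pool.Agent.H98.KT.Pair
import Pool.Agent.H98.KT.Ind
import Pool.Agent.H98.KT.Few
import Pool.Agent.H98.KT.Fam

/-!
# `(K_4, S_{1,1,3})`-free graphs without an induced `K_{t,t}`
-/

set_option autoImplicit false

namespace Pool.Agent.H98.KT

open Pool.Agent.H98.GI

open Classical in
/-- a family of largest size -/
theorem exists_largest {V : Type*} (P : Finset V → Prop) (N : ℕ) (h0 : P ∅) (hb : ∀ U, P U → U.card ≤ N) :
    ∃ U, P U ∧ ∀ U', P U' → U'.card ≤ U.card := by
  have hex : ∃ k, ∃ U, P U ∧ N - U.card = k := ⟨_, ∅, h0, rfl⟩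
  obtain ⟨U, hU, hUk⟩ := Nat.find_spec hex
  refine ⟨U, hU, fun U' hU' => ?_⟩
  have h1 := Nat.find_min' hex ⟨U', hU', rfl⟩
  have h2 := hb U hU
  have h3 := hb U' hU'
  omega

theorem comp_pre {V : Type*} {G : SimpleGraph V} {T : Set V} (C : (G.induce T).ConnectedComponent) :
    (G.induce (Subtype.val '' C.supp)).Preconnected := by
  let f : C.toSimpleGraph →g G.induce (Subtype.val '' C.supp) :=
    { toFun := fun x => ⟨x.1.1, x.1, x.2, rfl⟩
      map_rel' := fun {a b} h => h }
  refine SimpleGraph.Preconnected.map f ?_ C.connected_toSimpleGraph.preconnected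
  rintro ⟨_, y, hy, rfl⟩
  exact ⟨⟨y, hy⟩, rfl⟩

open Classical in
/-- the bound for families of disjoint sets of dominating vertices -/
theorem bound {V : Type*} {G : SimpleGraph V} (hS : S113Free G) {s θ M T : ℕ} (hN : NoK G s) (hs : 1 ≤ s)
    (B : V → Prop) (F D : V → Finset V)
    (hB : ∀ v, B v → (F v).card = 4 * θ ∧ (∀ a ∈ F v, G.Adj v a) ∧ ∀ a ∈ F v, ∀ b ∈ F v, ¬ G.Adj a b)
    (hD : ∀ v, B v → ∀ w, w ∈ D v ↔ θ ≤ ((F v).filter fun a => G.Adj w a).card)
    (hDM : ∀ v, B v → (D v).card ≤ M) (hθ : T + 2 ≤ θ) (S : Set V) (hpre : (G.induce S).Preconnected)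
    (hF : ∀ v ∈ S, B v → ((F v).filter fun a => a ∉ S).card ≤ T)
    (U : Finset V) (hU : ∀ u ∈ U, u ∈ S ∧ B u)
    (hdis : ∀ u ∈ U, ∀ v ∈ U, u ≠ v → Disjoint ((D u).filter fun a => a ∈ S) ((D v).filter fun a => a ∈ S)) :
    U.card ≤ s * M + s * 2 ^ (s * M * M) := by
  refine family G hN hs U (fun u => (D u).filter fun a => a ∈ S)
    (fun u hu => le_trans (Finset.card_filter_le _ _) (hDM u (hU u hu).2)) hdis ?_
  intro u hu v hv huv
  obtain ⟨uS, uB⟩ := hU u hu
  obtain ⟨vS, vB⟩ := hU v hv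
  have hS' : S113Free (G.induce S) := by
    rintro ⟨e⟩
    exact hS ⟨(SimpleGraph.Embedding.induce S).comp e⟩
  haveI : Nonempty ↥S := ⟨⟨u, uS⟩⟩
  have hG' : (G.induce S).Connected := ⟨hpre⟩
  have hcard : ∀ w ∈ S, B w → 3 * θ + 2 ≤ ((F w).subtype fun a => a ∈ S).card := by
    intro w wS wB
    rw [Finset.card_subtype]
    have h1 := Finset.card_filter_add_card_filter_not (s := F w) (fun a => a ∈ S)
    have h2 := hF w wS wB
    have h3 := (hB w wB).1
    omega
  have hadj : ∀ (w : V) (wS : w ∈ S), B w → ∀ a ∈ (F w).subtype (fun a => a ∈ S), (G.induce S).Adj ⟨w, wS⟩ a := by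
    intro w wS wB a ha
    exact (hB w wB).2.1 a.1 (Finset.mem_subtype.1 ha)
  have hind : ∀ w ∈ S, B w → ∀ a ∈ (F w).subtype (fun a => a ∈ S), ∀ b ∈ (F w).subtype (fun a => a ∈ S),
      ¬ (G.induce S).Adj a b := by
    intro w wS wB a ha b hb
    exact (hB w wB).2.2 a.1 (Finset.mem_subtype.1 ha) b.1 (Finset.mem_subtype.1 hb)
  have hup : ∀ w ∈ S, B w → ∀ x : ↥S,
      θ ≤ (((F w).subtype fun a => a ∈ S).filter fun a => (G.induce S).Adj x a).card →
      x.1 ∈ (D w).filter fun a => a ∈ S := by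
    intro w wS wB x hx
    rw [Finset.mem_filter, hD w wB]
    refine ⟨le_trans hx ?_, x.2⟩
    refine Finset.card_le_card_of_injOn Subtype.val ?_ (Subtype.val_injective.injOn)
    intro a ha
    have ha' := Finset.mem_filter.1 (Finset.mem_coe.1 ha)
    exact Finset.mem_coe.2 (Finset.mem_filter.2 ⟨Finset.mem_subtype.1 ha'.1, ha'.2⟩)
  obtain ⟨x, y, hx, hy, hxy⟩ := pairD (G := G.induce S) hS' hG' (θ := θ) ((F u).subtype fun a => a ∈ S)
    ((F v).subtype fun a => a ∈ S) (u := ⟨u, uS⟩) (v := ⟨v, vS⟩) (fun h => huv (congrArg Subtype.val h))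
    (hadj u uS uB) (hind u uS uB) (hadj v vS vB) (hind v vS vB) (hcard u uS uB) (hcard v vS vB)
    (by have := hcard u uS uB; omega)
  have hx' := hup u uS uB x hx
  have hy' := hup v vS vB y hy
  rcases hxy with h | h
  · rw [h] at hx'
    exact absurd hy' (Finset.disjoint_left.1 (hdis u hu v hv huv) hx')
  · exact ⟨x.1, hx', y.1, hy', h⟩

open Classical in
/-- the rounds -/
theorem rounds {V : Type*} {G : SimpleGraph V} (hS : S113Free G) {s θ M c d : ℕ} (hN : NoK G s) (hs : 1 ≤ s)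
    (B : V → Prop) (F D : V → Finset V)
    (hB : ∀ v, B v → (F v).card = 4 * θ ∧ (∀ a ∈ F v, G.Adj v a) ∧ ∀ a ∈ F v, ∀ b ∈ F v, ¬ G.Adj a b)
    (hD : ∀ v, B v → ∀ w, w ∈ D v ↔ θ ≤ ((F v).filter fun a => G.Adj w a).card)
    (hDM : ∀ v, B v → (D v).card ≤ M) (hd : ∀ v, ¬ B v → (G.neighborSet v).encard ≤ (d : ℕ∞))
    (hc : c = (s * M + s * 2 ^ (s * M * M)) * M) (hθ : M * c + 2 ≤ θ) :
    ∀ (n : ℕ) (S : Set V), (G.induce S).Preconnected →
      (∀ v ∈ S, B v → ((F v).filter fun a => a ∉ S).card + n * c ≤ M * c) →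
      (∀ v ∈ S, B v → ((D v).filter fun a => a ∈ S).card ≤ n) → Elim G c d n S := by
  have hself : ∀ v, B v → v ∈ D v := by
    intro v vB
    rw [hD v vB, Finset.filter_true_of_mem (hB v vB).2.1, (hB v vB).1]
    omega
  intro n
  induction n with
  | zero =>
    intro S _ _ h2 v hv
    by_cases vB : B v
    · exfalso
      have h3 := h2 v hv vB
      have h4 : v ∈ (D v).filter fun a => a ∈ S := Finset.mem_filter.2 ⟨hself v vB, hv⟩
      have h5 := Finset.card_pos.2 ⟨v, h4⟩
      omega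
    · exact hd v vB
  | succ n ih =>
    intro S hpre h1 h2
    have hT : ∀ v ∈ S, B v → ((F v).filter fun a => a ∉ S).card ≤ M * c := by
      intro v hv vB
      have := h1 v hv vB
      omega
    let P : Finset V → Prop := fun U => (∀ u ∈ U, u ∈ S ∧ B u) ∧
      ∀ u ∈ U, ∀ v ∈ U, u ≠ v → Disjoint ((D u).filter fun a => a ∈ S) ((D v).filter fun a => a ∈ S)
    have hb : ∀ U, P U → U.card ≤ s * M + s * 2 ^ (s * M * M) := fun U hU =>
      bound hS hN hs B F D hB hD hDM hθ S hpre hT U hU.1 hU.2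
    obtain ⟨U, hU, hmax⟩ := exists_largest P _ ⟨fun u hu => absurd hu (Finset.notMem_empty u),
      fun u hu => absurd hu (Finset.notMem_empty u)⟩ hb
    have hHc : (U.biUnion fun u => (D u).filter fun a => a ∈ S).card ≤ c := by
      rw [hc]
      refine le_trans (Finset.card_biUnion_le_card_mul _ _ M fun u hu => ?_) (Nat.mul_le_mul_right M (hb U hU))
      exact le_trans (Finset.card_filter_le _ _) (hDM u (hU.1 u hu).2)
    have hhit : ∀ v ∈ S, B v → ∃ w ∈ D v, w ∈ S ∧ w ∈ U.biUnion fun u => (D u).filter fun a => a ∈ S := by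
      intro v hv vB
      by_contra hcon
      have hno : ∀ w ∈ D v, w ∈ S → ∀ u ∈ U, w ∉ D u := by
        intro w hw wS u hu hwu
        exact hcon ⟨w, hw, wS, Finset.mem_biUnion.2 ⟨u, hu, Finset.mem_filter.2 ⟨hwu, wS⟩⟩⟩
      have hvU : v ∉ U := fun hvU => hno v (hself v vB) hv v hvU (hself v vB)
      have hP : P (insert v U) := by
        refine ⟨fun u hu => ?_, fun u hu u' hu' hne => ?_⟩
        · rcases Finset.mem_insert.1 hu with rfl | hu
          · exact ⟨hv, vB⟩
          · exact hU.1 u hu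
        · rcases Finset.mem_insert.1 hu with hu1 | hu1 <;> rcases Finset.mem_insert.1 hu' with hu2 | hu2
          · exact absurd (hu1.trans hu2.symm) hne
          · rw [hu1]
            refine Finset.disjoint_left.2 fun w hw hw' => ?_
            exact hno w (Finset.mem_filter.1 hw).1 (Finset.mem_filter.1 hw).2 u' hu2 (Finset.mem_filter.1 hw').1
          · rw [hu2]
            refine Finset.disjoint_left.2 fun w hw hw' => ?_
            exact hno w (Finset.mem_filter.1 hw').1 (Finset.mem_filter.1 hw').2 u hu1 (Finset.mem_filter.1 hw).1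
          · exact hU.2 u hu1 u' hu2 hne
      have := hmax _ hP
      rw [Finset.card_insert_of_notMem hvU] at this
      omega
    refine ⟨((U.biUnion fun u => (D u).filter fun a => a ∈ S : Finset V) : Set V), ?_, fun C => ?_⟩
    · rw [Set.encard_coe_eq_coe_finsetCard]
      exact_mod_cast hHc
    · have hsub : ∀ x ∈ (Subtype.val '' C.supp : Set V), x ∈ S ∧
          x ∉ U.biUnion fun u => (D u).filter fun a => a ∈ S := by
        rintro _ ⟨y, _, rfl⟩
        exact ⟨y.2.1, fun h => y.2.2 (Finset.mem_coe.2 h)⟩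
      refine ih _ (comp_pre C) (fun v hv vB => ?_) (fun v hv vB => ?_)
      · have hvS := (hsub v hv).1
        have k1 := h1 v hvS vB
        have k2 : (F v).filter (fun a => a ∉ (Subtype.val '' C.supp : Set V)) ⊆
            (F v).filter (fun a => a ∉ S) ∪ U.biUnion fun u => (D u).filter fun a => a ∈ S := by
          intro a ha
          obtain ⟨ha1, ha2⟩ := Finset.mem_filter.1 ha
          rw [Finset.mem_union]
          by_contra hcon
          rw [not_or] at hcon
          have haS : a ∈ S := by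
            by_contra h
            exact hcon.1 (Finset.mem_filter.2 ⟨ha1, h⟩)
          have haT : a ∈ S \ ((U.biUnion fun u => (D u).filter fun a => a ∈ S : Finset V) : Set V) :=
            ⟨haS, fun h => hcon.2 (Finset.mem_coe.1 h)⟩
          apply ha2
          obtain ⟨y, hy, rfl⟩ := hv
          refine ⟨⟨a, haT⟩, ?_, rfl⟩
          rw [SimpleGraph.ConnectedComponent.mem_supp_iff] at hy ⊢
          rw [← hy]
          refine SimpleGraph.ConnectedComponent.sound (SimpleGraph.Adj.reachable ?_)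
          exact ((hB y.1 vB).2.1 a ha1).symm
        have k3 := le_trans (Finset.card_le_card k2) (Finset.card_union_le _ _)
        rw [Nat.succ_mul] at k1
        omega
      · obtain ⟨w, hw, wS, wH⟩ := hhit v (hsub v hv).1 vB
        have k1 := h2 v (hsub v hv).1 vB
        have k2 : (D v).filter (fun a => a ∈ (Subtype.val '' C.supp : Set V)) ⊂ (D v).filter fun a => a ∈ S := by
          refine Finset.ssubset_iff_subset_ne.2 ⟨?_, ?_⟩
          · intro a ha
            obtain ⟨ha1, ha2⟩ := Finset.mem_filter.1 ha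
            exact Finset.mem_filter.2 ⟨ha1, (hsub a ha2).1⟩
          · intro h
            have : w ∈ (D v).filter fun a => a ∈ S := Finset.mem_filter.2 ⟨hw, wS⟩
            rw [← h] at this
            exact (hsub w (Finset.mem_filter.1 this).2).2 wH
        have k3 := Finset.card_lt_card k2
        omega

/-- the theorem -/
theorem main (t : ℕ) (ht : 1 ≤ t) : ∃ c d n : ℕ, ∀ (V : Type*) (G : SimpleGraph V), S113Free G → G.CliqueFree 4 →
    ¬ Nonempty (completeBipartiteGraph (Fin t) (Fin t) ↪g G) → Elim G c d n Set.univ := by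
  classical
  obtain ⟨s, hs0⟩ : ∃ s, s = t * (t + 1) * (t + 2) := ⟨_, rfl⟩
  obtain ⟨M, hM⟩ : ∃ M, M = 8 * s := ⟨_, rfl⟩
  obtain ⟨c, hc⟩ : ∃ c, c = (s * M + s * 2 ^ (s * M * M)) * M := ⟨_, rfl⟩
  obtain ⟨θ, hθ⟩ : ∃ θ, θ = M * c + 2 + (2 * s * 2 ^ (8 * s) + 1) := ⟨_, rfl⟩
  have hs : 1 ≤ s := by
    rw [hs0]
    exact Nat.one_le_iff_ne_zero.2 (by positivity)
  refine ⟨c, 4 * θ * (4 * θ + 1), M + 1, fun V G hS hK hB => ?_⟩
  have hN : NoK G s := by
    rw [hs0]
    exact noK_of G hK t hB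
  let Bg : V → Prop := fun v => ∃ I : Finset V, I.card = 4 * θ ∧ (∀ a ∈ I, G.Adj v a) ∧
    ∀ a ∈ I, ∀ b ∈ I, ¬ G.Adj a b
  have hch : ∀ v, ∃ I : Finset V, Bg v → I.card = 4 * θ ∧ (∀ a ∈ I, G.Adj v a) ∧
      ∀ a ∈ I, ∀ b ∈ I, ¬ G.Adj a b := by
    intro v
    by_cases hv : Bg v
    · obtain ⟨I, hI⟩ := hv
      exact ⟨I, fun _ => hI⟩
    · exact ⟨∅, fun h => absurd h hv⟩
  choose F hF using hch
  have hcd : ∀ v, ∃ D : Finset V, Bg v → (∀ w, w ∈ D ↔ θ ≤ ((F v).filter fun a => G.Adj w a).card) ∧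
      D.card ≤ M := by
    intro v
    by_cases hv : Bg v
    · have key : ∀ W : Finset V, (∀ w ∈ W, θ ≤ ((F v).filter fun a => G.Adj w a).card) → W.card < 8 * s :=
        fun W hW => few G hN hs (by omega) (F v) (hF v hv).1 W hW
      have hfin : {w | θ ≤ ((F v).filter fun a => G.Adj w a).card}.Finite := by
        by_contra hinf
        obtain ⟨W, hW, hWc⟩ := Set.Infinite.exists_subset_card_eq hinf (8 * s)
        have := key W fun w hw => hW hw
        omega
      refine ⟨hfin.toFinset, fun _ => ⟨fun w => by simp, ?_⟩⟩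
      have := key hfin.toFinset fun w hw => by simpa using hw
      omega
    · exact ⟨∅, fun h => absurd h hv⟩
  choose D hD using hcd
  refine ⟨∅, by simp, fun C => ?_⟩
  refine rounds hS hN hs Bg F D hF (fun v hv => (hD v hv).1) (fun v hv => (hD v hv).2) (fun v hv => ?_) hc
    (by omega) M _ (comp_pre C) (fun v hv vB => ?_) (fun v hv vB => ?_)
  · exact deg_of_star hK (4 * θ) v fun I h1 h2 h3 => hv ⟨I, h1, h2, h3⟩
  · have : (F v).filter (fun a => a ∉ (Subtype.val '' C.supp : Set V)) = ∅ := by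
      refine Finset.filter_eq_empty_iff.2 fun a ha => not_not.2 ?_
      obtain ⟨y, hy, rfl⟩ := hv
      refine ⟨⟨a, Set.mem_univ a, Set.notMem_empty a⟩, ?_, rfl⟩
      rw [SimpleGraph.ConnectedComponent.mem_supp_iff] at hy ⊢
      rw [← hy]
      refine SimpleGraph.ConnectedComponent.sound (SimpleGraph.Adj.reachable ?_)
      exact ((hF y.1 vB).2.1 a ha).symm
    rw [this, Finset.card_empty]
    omega
  · exact le_trans (Finset.card_filter_le _ _) (hD v vB).2

end Pool.Agent.H98.KT
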