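import Pool.Agent.H98.KT.Def

/-!
# Two vertices with many independent neighbours in a connected `S_{1,1,3}`-free graph
-/

set_option autoImplicit false

namespace Pool.Agent.H98.KT

open Pool.Agent.H98.GI

variable {V : Type*} {G : SimpleGraph V}

open Classical in
/-- two elements of `I` away from three vertices -/
theorem pick3 {θ : ℕ} (I : Finset V) (hc : 3 * θ + 2 ≤ I.card) (w1 w2 w3 : V)
    (h1 : (I.filter fun a => G.Adj w1 a).card ≤ θ) (h2 : (I.filter fun a => G.Adj w2 a).card ≤ θ)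
    (h3 : (I.filter fun a => G.Adj w3 a).card ≤ θ) :
    ∃ a ∈ I, ∃ b ∈ I, a ≠ b ∧ (¬ G.Adj w1 a ∧ ¬ G.Adj w2 a ∧ ¬ G.Adj w3 a) ∧
      ¬ G.Adj w1 b ∧ ¬ G.Adj w2 b ∧ ¬ G.Adj w3 b := by
  have hsub : I ⊆ (((I.filter fun a => G.Adj w1 a) ∪ (I.filter fun a => G.Adj w2 a)) ∪
      (I.filter fun a => G.Adj w3 a)) ∪ (I.filter fun a => ¬ G.Adj w1 a ∧ ¬ G.Adj w2 a ∧ ¬ G.Adj w3 a) := by
    intro a ha
    by_cases g1 : G.Adj w1 a
    · simp [ha, g1]
    · by_cases g2 : G.Adj w2 a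
      · simp [ha, g2]
      · by_cases g3 : G.Adj w3 a
        · simp [ha, g3]
        · simp [ha, g1, g2, g3]
  have c0 := Finset.card_le_card hsub
  have c1 := Finset.card_union_le (((I.filter fun a => G.Adj w1 a) ∪ (I.filter fun a => G.Adj w2 a)) ∪
      (I.filter fun a => G.Adj w3 a)) (I.filter fun a => ¬ G.Adj w1 a ∧ ¬ G.Adj w2 a ∧ ¬ G.Adj w3 a)
  have c2 := Finset.card_union_le ((I.filter fun a => G.Adj w1 a) ∪ (I.filter fun a => G.Adj w2 a))
      (I.filter fun a => G.Adj w3 a)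
  have c3 := Finset.card_union_le (I.filter fun a => G.Adj w1 a) (I.filter fun a => G.Adj w2 a)
  obtain ⟨a, ha, b, hb, hab⟩ := Finset.one_lt_card.1
    (by omega : 1 < (I.filter fun a => ¬ G.Adj w1 a ∧ ¬ G.Adj w2 a ∧ ¬ G.Adj w3 a).card)
  rw [Finset.mem_filter] at ha hb
  exact ⟨a, ha.1, b, hb.1, hab, ha.2, hb.2⟩

open Classical in
/-- the middle of an induced path of five vertices -/
theorem mid (hS : S113Free G) {θ : ℕ} {u x1 x2 x3 v : V} (e1 : G.Adj u x1) (e2 : G.Adj x1 x2) (e3 : G.Adj x2 x3)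
    (e4 : G.Adj x3 v) (n1 : ¬ G.Adj u x2) (n2 : ¬ G.Adj u x3) (n4 : ¬ G.Adj x1 x3) (n5 : ¬ G.Adj x1 v)
    (n6 : ¬ G.Adj x2 v) (I : Finset V) (hI : ∀ a ∈ I, G.Adj u a) (hi : ∀ a ∈ I, ∀ b ∈ I, ¬ G.Adj a b)
    (h3 : ∀ a ∈ I, ¬ G.Adj a x3) (hv : ∀ a ∈ I, ¬ G.Adj a v) (hc : 3 * θ + 2 ≤ I.card) :
    θ ≤ (I.filter fun a => G.Adj x2 a).card := by
  by_contra hlt
  rw [not_le] at hlt
  have c0 := Finset.card_filter_add_card_filter_not (s := I) (fun a => G.Adj x2 a)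
  have c1 := Finset.card_filter_add_card_filter_not (s := I.filter fun a => ¬ G.Adj x2 a) (fun a => G.Adj x1 a)
  rcases le_or_gt 2 ((I.filter fun a => ¬ G.Adj x2 a).filter fun a => ¬ G.Adj x1 a).card with h | h
  · obtain ⟨a, ha, b, hb, hab⟩ := Finset.one_lt_card.1 h
    simp only [Finset.mem_filter] at ha hb
    exact hS.out u a b x1 x2 x3 (hI a ha.1.1) (hI b hb.1.1) e1 e2 e3 hab (hi a ha.1.1 b hb.1.1)
      (fun k => ha.2 k.symm) (fun k => ha.1.2 k.symm) (h3 a ha.1.1) (fun k => hb.2 k.symm)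
      (fun k => hb.1.2 k.symm) (h3 b hb.1.1) n1 n2 n4
  · obtain ⟨a, ha, b, hb, hab⟩ := Finset.one_lt_card.1
      (by omega : 1 < ((I.filter fun a => ¬ G.Adj x2 a).filter fun a => G.Adj x1 a).card)
    simp only [Finset.mem_filter] at ha hb
    exact hS.out x1 a b x2 x3 v ha.2 hb.2 e2 e3 e4 hab (hi a ha.1.1 b hb.1.1)
      (fun k => ha.1.2 k.symm) (h3 a ha.1.1) (hv a ha.1.1) (fun k => hb.1.2 k.symm)
      (h3 b hb.1.1) (hv b hb.1.1) n4 n5 n6

open Classical in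
/-- dominating vertices of two vertices are equal or adjacent -/
theorem pairD (hS : S113Free G) (hG : G.Connected) {θ : ℕ} (I J : Finset V) {u v : V} (huv : u ≠ v)
    (hI : ∀ a ∈ I, G.Adj u a) (hi : ∀ a ∈ I, ∀ b ∈ I, ¬ G.Adj a b) (hJ : ∀ a ∈ J, G.Adj v a)
    (hj : ∀ a ∈ J, ∀ b ∈ J, ¬ G.Adj a b) (hcI : 3 * θ + 2 ≤ I.card) (hcJ : 3 * θ + 2 ≤ J.card) (h3 : 3 ≤ I.card) :
    ∃ x y, θ ≤ (I.filter fun a => G.Adj x a).card ∧ θ ≤ (J.filter fun a => G.Adj y a).card ∧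
      (x = y ∨ G.Adj x y) := by
  by_contra hcon
  have key : ∀ x y, θ ≤ (I.filter fun a => G.Adj x a).card → θ ≤ (J.filter fun a => G.Adj y a).card →
      x ≠ y ∧ ¬ G.Adj x y := by
    intro x y h1 h2
    refine ⟨fun h => hcon ⟨x, y, h1, h2, Or.inl h⟩, fun h => hcon ⟨x, y, h1, h2, Or.inr h⟩⟩
  have hu : θ ≤ (I.filter fun a => G.Adj u a).card := by
    rw [Finset.filter_true_of_mem hI]
    omega
  have hv : θ ≤ (J.filter fun a => G.Adj v a).card := by
    rw [Finset.filter_true_of_mem hJ]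
    omega
  have hdist : G.dist u v ≤ 4 := by
    obtain ⟨a, ha, b, hb, c, hc, hab, hac, hbc⟩ := Finset.two_lt_card.1 (by omega : 2 < I.card)
    exact ecc hG hS (v := u) (a := a) (b := b) (c := c) ⟨hI a ha, hI b hb, hI c hc, hab, hac, hbc, hi a ha b hb,
      hi a ha c hc, hi b hb c hc⟩ v
  have nI : ∀ x, ¬ θ ≤ (I.filter fun a => G.Adj x a).card → (I.filter fun a => G.Adj x a).card ≤ θ :=
    fun x h => by omega
  have nJ : ∀ x, ¬ θ ≤ (J.filter fun a => G.Adj x a).card → (J.filter fun a => G.Adj x a).card ≤ θ :=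
    fun x h => by omega
  have vI : (I.filter fun a => G.Adj v a).card ≤ θ := nI v fun h => (key v v h hv).1 rfl
  have uJ : (J.filter fun a => G.Adj u a).card ≤ θ := nJ u fun h => (key u u hu h).1 rfl
  have d0 : G.dist u u = 0 := SimpleGraph.dist_self
  have e0 : G.dist u v ≠ 0 := fun h => huv ((hG.dist_eq_zero_iff).1 h)
  have e1 : G.dist u v ≠ 1 := fun h => (key u v hu hv).2 (SimpleGraph.dist_eq_one_iff_adj.1 h)
  have hdI : ∀ a ∈ I, G.dist u a = 1 := fun a ha => SimpleGraph.dist_eq_one_iff_adj.2 (hI a ha)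
  obtain h | h | h : G.dist u v = 2 ∨ G.dist u v = 3 ∨ G.dist u v = 4 := by omega
  · obtain ⟨x, hx, dx⟩ := pred hG (n := 1) h
    have hux := SimpleGraph.dist_eq_one_iff_adj.1 dx
    have nuv : ¬ G.Adj u v := nd hG u (by omega)
    have xI : (I.filter fun a => G.Adj x a).card ≤ θ := nI x fun h => (key x v h hv).2 hx
    have xJ : (J.filter fun a => G.Adj x a).card ≤ θ := nJ x fun h => (key u x hu h).2 hux
    obtain ⟨c, hc, -, -, -, ⟨k1, k2, -⟩, -⟩ := pick3 J hcJ x u u xJ uJ uJ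
    have cI : (I.filter fun a => G.Adj c a).card ≤ θ := nI c fun h => (key c v h hv).2 (hJ c hc).symm
    obtain ⟨a, ha, b, hb, hab, ⟨a1, a2, a3⟩, b1, b2, b3⟩ := pick3 I hcI x v c xI vI cI
    exact hS.out u a b x v c (hI a ha) (hI b hb) hux hx (hJ c hc) hab (hi a ha b hb) (fun k => a1 k.symm)
      (fun k => a2 k.symm) (fun k => a3 k.symm) (fun k => b1 k.symm) (fun k => b2 k.symm) (fun k => b3 k.symm)
      nuv k2 k1
  · obtain ⟨x2, hx2, dx2⟩ := pred hG (n := 2) h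
    obtain ⟨x1, hx1, dx1⟩ := pred hG (n := 1) dx2
    have hux := SimpleGraph.dist_eq_one_iff_adj.1 dx1
    have m1 : ¬ G.Adj u x2 := nd hG u (by omega)
    have m2 : ¬ G.Adj u v := nd hG u (by omega)
    have m3 : ¬ G.Adj x1 v := nd hG u (by omega)
    have A : θ ≤ (I.filter fun a => G.Adj x1 a).card ∨ θ ≤ (I.filter fun a => G.Adj x2 a).card := by
      by_contra hA
      rw [not_or] at hA
      obtain ⟨a, ha, b, hb, hab, ⟨a1, a2, a3⟩, b1, b2, b3⟩ := pick3 I hcI x1 x2 v (nI _ hA.1) (nI _ hA.2) vI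
      exact hS.out u a b x1 x2 v (hI a ha) (hI b hb) hux hx1 hx2 hab (hi a ha b hb) (fun k => a1 k.symm)
        (fun k => a2 k.symm) (fun k => a3 k.symm) (fun k => b1 k.symm) (fun k => b2 k.symm) (fun k => b3 k.symm)
        m1 m2 m3
    have B : θ ≤ (J.filter fun a => G.Adj x1 a).card ∨ θ ≤ (J.filter fun a => G.Adj x2 a).card := by
      by_contra hA
      rw [not_or] at hA
      obtain ⟨a, ha, b, hb, hab, ⟨a1, a2, a3⟩, b1, b2, b3⟩ := pick3 J hcJ x1 x2 u (nJ _ hA.1) (nJ _ hA.2) uJ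
      exact hS.out v a b x2 x1 u (hJ a ha) (hJ b hb) hx2.symm hx1.symm hux.symm hab (hj a ha b hb)
        (fun k => a2 k.symm) (fun k => a1 k.symm) (fun k => a3 k.symm) (fun k => b2 k.symm) (fun k => b1 k.symm)
        (fun k => b3 k.symm) (fun k => m3 k.symm) (fun k => m2 k.symm) (fun k => m1 k.symm)
    rcases A with A | A <;> rcases B with B | B
    · exact (key _ _ A B).1 rfl
    · exact (key _ _ A B).2 hx1
    · exact (key _ _ A B).2 hx1.symm
    · exact (key _ _ A B).1 rfl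
  · obtain ⟨x3, hx3, dx3⟩ := pred hG (n := 3) h
    obtain ⟨x2, hx2, dx2⟩ := pred hG (n := 2) dx3
    obtain ⟨x1, hx1, dx1⟩ := pred hG (n := 1) dx2
    have hux := SimpleGraph.dist_eq_one_iff_adj.1 dx1
    have hdJ : ∀ a ∈ J, 3 ≤ G.dist u a := by
      intro a ha
      have := adj_le hG (u := u) (hJ a ha).symm
      omega
    have A := mid hS (θ := θ) hux hx1 hx2 hx3 (nd hG u (by omega)) (nd hG u (by omega)) (nd hG u (by omega))
      (nd hG u (by omega)) (nd hG u (by omega)) I hI hi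
      (fun a ha => nd hG u (by have := hdI a ha; omega)) (fun a ha => nd hG u (by have := hdI a ha; omega)) hcI
    have B := mid hS (θ := θ) hx3.symm hx2.symm hx1.symm hux.symm (nd hG u (by omega)) (nd hG u (by omega))
      (nd hG u (by omega)) (nd hG u (by omega)) (nd hG u (by omega)) J hJ hj
      (fun a ha => nd hG u (by have := hdJ a ha; omega)) (fun a ha => nd hG u (by have := hdJ a ha; omega)) hcJ
    exact (key _ _ A B).1 rfl

end Pool.Agent.H98.KT
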