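import Pool.Agent.H98.KT.Def

set_option autoImplicit false

namespace Pool.Agent.H98.KT

open Classical in
/-- pigeonhole on the traces on `X` -/
theorem trace {V : Type*} (G : SimpleGraph V) {s : ℕ} (hN : NoK G s) (hs : 1 ≤ s) (X Y : Finset V)
    (h : ∀ y ∈ Y, s ≤ (X.filter fun x => G.Adj y x).card) : Y.card ≤ s * 2 ^ X.card := by
  by_contra hlt
  rw [not_le] at hlt
  have hmap : ∀ y ∈ Y, (X.filter fun x => G.Adj y x) ∈ X.powerset := fun y _ =>
    Finset.mem_powerset.2 (Finset.filter_subset _ _)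
  have hcard : X.powerset.card * s < Y.card := by
    rw [Finset.card_powerset, mul_comm]
    exact hlt
  obtain ⟨T, _, hT⟩ := Finset.exists_lt_card_fiber_of_mul_lt_card_of_maps_to hmap hcard
  obtain ⟨A, hAs, hAc⟩ := Finset.exists_subset_card_eq hT.le
  have hA : ∀ a ∈ A, a ∈ Y ∧ (X.filter fun x => G.Adj a x) = T := fun a ha =>
    Finset.mem_filter.1 (hAs ha)
  have hAne : A.Nonempty := Finset.card_pos.1 (by omega)
  obtain ⟨a0, ha0⟩ := hAne
  have hTc : s ≤ T.card := by
    rw [← (hA a0 ha0).2]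
    exact h a0 (hA a0 ha0).1
  obtain ⟨B, hBs, hBc⟩ := Finset.exists_subset_card_eq hTc
  refine hN A B hAc hBc fun a ha b hb => ?_
  have hbT : b ∈ T := hBs hb
  rw [← (hA a ha).2] at hbT
  exact (Finset.mem_filter.1 hbT).2

end Pool.Agent.H98.KT
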